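import Pool.Agent.E8helper37.RY.Card
import Pool.Agent.H574R2.Q4.Z
import Pool.Agent.H574R2.D9.Z
import Pool.Agent.H336R2.HD.Z
import Pool.Agent.Y926.TW.Dist

/-!
# Arithmetic expressions of all shapes in finitely many odd zeta values

An arithmetic expression is a binary tree with labelled leaves and with nodes labelled by the
operations `+`, `*`, `/`. There are `s ^ n * 3 ^ (n - 1) * C_(n-1)` expressions with `n` leaves and `s` leaf
labels (`C_k` the Catalan numbers). The leaf labels are positive real numbers `v s`.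

Zero-one law (`N ≥ 1`). Either a number field of degree at most `N` contains all labels; then it contains
the values of all expressions. Or almost all expressions are outside all spaces of dimension `N`,
uniformly: for every `ε > 0` and all large `n`, all complex `a, b, c, d` with `a d ≠ b c` and all rational
subspaces `W ⊆ ℂ` of dimension at most `N` the number `(a C + b) / (c C + d)`, `C` the value, is in `W`
for at most an `ε`-fraction of the expressions with `n` leaves; and `C` is algebraic of degree at most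
`N` for at most an `ε`-fraction of them.

By the linear independence theorems of the starting files the second alternative holds for the labels
`ζ(3), ζ(5), ζ(7), ζ(9)` with `N = 2`, for `ζ(3), ..., ζ(75)` with `N = 3`, and for `ζ(2 b + 3), ...,
ζ(2 (b + k) + 1)` with every `N` such that `2 ^ (132 N) (2 b + 3) ^ 2 log 2 ≤ (2 (b + k) + 1) ^ 2`.

Proof of the zero-one law. The products of labels span the field generated by the labels if the
labels are algebraic; so there are `N + 1` independent products `μ_0, ..., μ_N` of labels. For a label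
`θ ≠ 1` the expressions which produce `x + θ (θ - 1) (i_0 μ_0 + ... + i_N μ_N)` for `0 ≤ i_k ≤ h` can be
replaced by each other (they have the same number of leaves), and almost all expressions contain one
of them. For a fixed context at most `(N + 3) (h + 1) ^ N` of the `(h + 1) ^ (N + 1)` values are in `W`: on
each line in the direction `μ_k` the number of values in `W` is at most `N + 2` (partial fractions), at
most one unless the context and `μ_k` have a special position, and there are directions without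
special position. A number field has only finitely many subfields, which gives the statement on
degrees.
-/

set_option autoImplicit false

namespace Pool.Agent.Results.MP_a89d6d_nt.AllShapesH37

open Module
open Pool.Agent.E8helper37.RX (Expr)
open Pool.Agent.E8helper37.RY

/-- The numbers `ζ(2 b + 3), ζ(2 b + 5), ..., ζ(2 (b + k) + 1)`. -/
noncomputable def odd (b k : ℕ) (i : Fin k) : ℝ := ∑' n : ℕ, 1 / ((n : ℝ) + 1) ^ (2 * (b + i.1) + 3)

theorem odd_pos (b k : ℕ) (i : Fin k) : 0 < odd b k i := by
  unfold odd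
  have hsum : Summable fun n : ℕ => 1 / ((n : ℝ) + 1) ^ (2 * (b + i.1) + 3) := by
    have h1 : Summable fun n : ℕ => 1 / (n : ℝ) ^ (2 * (b + i.1) + 3) :=
      Real.summable_one_div_nat_pow.2 (by omega)
    have h2 := (summable_nat_add_iff 1).2 h1
    simpa using h2
  refine hsum.tsum_pos (fun n => by positivity) 0 (by positivity)

theorem four_two : Few (odd 0 4) 2 := by
  refine few_of (odd_pos 0 4) (by norm_num) fun K hK hfin => ?_
  have h : 3 ≤ finrank ℚ (Submodule.span ℚ
      (Set.range fun i : Fin 5 =>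
        if i.1 = 0 then (1 : ℝ) else ∑' n : ℕ, 1 / ((n : ℝ) + 1) ^ (2 * i.1 + 1))) :=
    Pool.Agent.H574R2.D9.Z_main Pool.Agent.H336R2.HD.Z_main
  have hle : Submodule.span ℚ (Set.range fun i : Fin 5 =>
      if i.1 = 0 then (1 : ℝ) else ∑' n : ℕ, 1 / ((n : ℝ) + 1) ^ (2 * i.1 + 1)) ≤
      Subalgebra.toSubmodule K.toSubalgebra := by
    rw [Submodule.span_le]
    rintro x ⟨i, rfl⟩
    show (if i.1 = 0 then (1 : ℝ) else ∑' n : ℕ, 1 / ((n : ℝ) + 1) ^ (2 * i.1 + 1)) ∈ K
    split_ifs with h0
    · exact one_mem K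
    · have h1 := hK ⟨i.1 - 1, by omega⟩
      have h2 : 2 * (0 + (i.1 - 1)) + 3 = 2 * i.1 + 1 := by omega
      unfold odd at h1
      simp only [h2] at h1
      exact h1
  have hfin' : FiniteDimensional ℚ (Subalgebra.toSubmodule K.toSubalgebra) := hfin
  exact h.trans (Submodule.finrank_mono hle)

theorem many_three : Few (odd 0 37) 3 := by
  refine few_of (odd_pos 0 37) (by norm_num) fun K hK hfin => ?_
  have h : 4 ≤ finrank ℚ (Submodule.span ℚ
      (Set.range fun i : Fin 38 =>
        if i.1 = 0 then (1 : ℝ) else ∑' n : ℕ, 1 / ((n : ℝ) + 1) ^ (2 * i.1 + 1))) :=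
    Pool.Agent.H574R2.Q4.Z_main (Pool.Agent.H574R2.D9.Z_main Pool.Agent.H336R2.HD.Z_main)
  have hle : Submodule.span ℚ (Set.range fun i : Fin 38 =>
      if i.1 = 0 then (1 : ℝ) else ∑' n : ℕ, 1 / ((n : ℝ) + 1) ^ (2 * i.1 + 1)) ≤
      Subalgebra.toSubmodule K.toSubalgebra := by
    rw [Submodule.span_le]
    rintro x ⟨i, rfl⟩
    show (if i.1 = 0 then (1 : ℝ) else ∑' n : ℕ, 1 / ((n : ℝ) + 1) ^ (2 * i.1 + 1)) ∈ K
    split_ifs with h0
    · exact one_mem K
    · have h1 := hK ⟨i.1 - 1, by omega⟩
      have h2 : 2 * (0 + (i.1 - 1)) + 3 = 2 * i.1 + 1 := by omega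
      unfold odd at h1
      simp only [h2] at h1
      exact h1
  have hfin' : FiniteDimensional ℚ (Subalgebra.toSubmodule K.toSubalgebra) := hfin
  exact h.trans (Submodule.finrank_mono hle)

theorem window (b k N : ℕ) (hN : 1 ≤ N)
    (h : (2 : ℝ) ^ (132 * N) * (2 * b + 3) ^ 2 * Real.log 2 ≤ (2 * (b + k) + 1) ^ 2) :
    Few (odd b k) N := by
  refine few_of (odd_pos b k) hN fun K hK hfin => ?_
  by_contra hcon
  push Not at hcon
  -- a linear function on `K` which is one at `1`
  obtain ⟨φ, hφ⟩ : ∃ φ : Module.Dual ℚ K, φ 1 = 1 := by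
    by_contra hc
    push Not at hc
    have h1 : (1 : K) = 0 := (Module.forall_dual_apply_eq_zero_iff ℚ (1 : K)).1 fun φ => by
      by_contra h2
      apply hc ((φ 1)⁻¹ • φ)
      rw [LinearMap.smul_apply, smul_eq_mul, inv_mul_cancel₀ h2]
    exact one_ne_zero h1
  have hker : finrank ℚ (LinearMap.ker φ) + 1 = finrank ℚ K := by
    have h1 := LinearMap.finrank_range_add_finrank_ker φ
    have h2 : LinearMap.range φ = ⊤ := by
      rw [LinearMap.range_eq_top]
      intro q
      exact ⟨q • 1, by rw [map_smul, hφ]; simp⟩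
    rw [h2, finrank_top, finrank_self] at h1
    omega
  set V : Submodule ℚ ℝ := (LinearMap.ker φ).map K.val.toLinearMap with hV
  have hVfd : FiniteDimensional ℚ V := by
    rw [hV]
    infer_instance
  have hVN : finrank ℚ V ≤ N - 1 := by
    have := Submodule.finrank_map_le K.val.toLinearMap (LinearMap.ker φ)
    rw [← hV] at this
    omega
  have hw := Pool.Agent.Y926.TW.window_space (b := 2 * b + 2) (K := 1) (D := N - 1)
    (s := 2 * (b + k) + 1) le_rfl (by
      have h1 : N - 1 + 1 = N := by omega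
      rw [h1]
      push_cast
      have h2 : (2 * (b : ℝ) + 2 + 1) = 2 * b + 3 := by ring
      rw [h2, one_pow, mul_one, one_add_one_eq_two]
      exact h) V hVfd hVN
  have hne : Set.ncard {j : ℕ | 2 * b + 2 < j ∧ j ≤ 2 * (b + k) + 1 ∧ Odd j ∧
      ∀ r : ℚ, (∑' n : ℕ, 1 / ((n : ℝ) + 1) ^ j) - r ∉ V} ≠ 0 := by omega
  obtain ⟨j, hj1, hj2, hj3, hj4⟩ := Set.nonempty_of_ncard_ne_zero hne
  obtain ⟨l, hl⟩ := hj3
  have hi : l - 1 - b < k := by omega
  have h1 := hK ⟨l - 1 - b, hi⟩
  have h2 : 2 * (b + (l - 1 - b)) + 3 = j := by omega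
  unfold odd at h1
  simp only [h2] at h1
  apply hj4 (φ ⟨_, h1⟩)
  rw [hV]
  refine ⟨⟨_, h1⟩ - φ ⟨_, h1⟩ • 1, ?_, ?_⟩
  · rw [SetLike.mem_coe, LinearMap.mem_ker, map_sub, map_smul, hφ]
    simp
  · simp [Algebra.smul_def]

/-- **Zero-one law for arithmetic expressions, and odd zeta values.** -/
theorem result :
    (∀ (σ : Type) [Fintype σ] [Nonempty σ] (v : σ → ℝ), (∀ s, 0 < v s) → ∀ N : ℕ, 1 ≤ N →
      (Few v N ↔ ∀ L : IntermediateField ℚ ℝ, (∀ s, v s ∈ L) → FiniteDimensional ℚ L →
        N < finrank ℚ L)) ∧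
    Few (odd 0 4) 2 ∧ Few (odd 0 37) 3 ∧
    ∀ b k N : ℕ, 1 ≤ N →
      (2 : ℝ) ^ (132 * N) * (2 * b + 3) ^ 2 * Real.log 2 ≤ (2 * (b + k) + 1) ^ 2 →
      Few (odd b k) N :=
  ⟨fun _ _ _ _ hv _ hN => few_iff hv hN, four_two, many_three, window⟩

end Pool.Agent.Results.MP_a89d6d_nt.AllShapesH37
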