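import Mathlib
import Pool.Agent.E8helper42.AZ.Pre3
import Pool.Agent.E8helper42.AZ.FinM
import Pool.Agent.E8helper41.AZ.Beu2
import Pool.Agent.E8helper77.AZ.Beu3

/-!
# `π`, `ζ(3)`, `e` and the exponential versions of Beukers's integrals

Let `I_j(t) = 1/2 ∫ f^j exp (t f) / (1 - (1 - x y) z) dx dy dz` (unit cube),
`f = x y z (1 - x) (1 - y) (1 - z) / (1 - (1 - x y) z)`, and `K_j(t) = ∫ g^j exp (t g) / (1 - x y) dx dy` (unit square),
`g = x y (1 - x) (1 - y) / (1 - x y)`; here `f`, `g` are the functions of Beukers's integrals for Apery's linear forms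
`I_n(0) = a_n ζ(3) - b_n` and `K_n(0) = c_n π² / 6 - d_n`, and `I_0(0) = ζ(3)`, `K_0(0) = π² / 6`. Then
`I_j(t) = ζ(3) A_j(t) - B_j(t)`, `K_j(t) = π² / 6 C_j(t) - D_j(t)` with `A_j(t) = ∑ a_{n+j} t^n / n!` and so on.

The number `e` and all the numbers `A_j(t)`, `B_j(t)` (`j < 4`), `C_j(t)`, `D_j(t)` (`j < 3`), `t` positive rational, are
algebraically independent. Consequences: see `result`.
-/

set_option autoImplicit false

namespace Pool.Agent.Results.MP_a89d6d_nt.JointAperyIntegralsH42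

open Pool.Agent.E8helper42.AZ Real

/-- `ζ(3)` -/
noncomputable def zeta3 : ℝ := ∑' m : ℕ, 1 / ((m : ℝ) + 1) ^ 3

/-- the function whose powers occur in Beukers's triple integrals -/
noncomputable def f (x y z : ℝ) : ℝ := x * y * z * (1 - x) * (1 - y) * (1 - z) / (1 - (1 - x * y) * z)

/-- the function whose powers occur in Beukers's double integrals -/
noncomputable def g (x y : ℝ) : ℝ := x * y * (1 - x) * (1 - y) / (1 - x * y)

/-- the open unit cube -/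
def cube : Set (ℝ × ℝ × ℝ) := Set.Ioo 0 1 ×ˢ Set.Ioo 0 1 ×ˢ Set.Ioo 0 1

/-- the open unit square -/
def square : Set (ℝ × ℝ) := Set.Ioo 0 1 ×ˢ Set.Ioo 0 1

/-- `I_j(t) = 1/2 ∫ f^j exp (t f) / (1 - (1 - x y) z) dx dy dz`, the integral being over the unit cube -/
noncomputable def I (j : ℕ) (t : ℝ) : ℝ :=
  1 / 2 * ∫ p in cube, f p.1 p.2.1 p.2.2 ^ j * Real.exp (t * f p.1 p.2.1 p.2.2) / (1 - (1 - p.1 * p.2.1) * p.2.2)

/-- `K_j(t) = ∫ g^j exp (t g) / (1 - x y) dx dy`, the integral being over the unit square -/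
noncomputable def K (j : ℕ) (t : ℝ) : ℝ :=
  ∫ p in square, g p.1 p.2 ^ j * Real.exp (t * g p.1 p.2) / (1 - p.1 * p.2)

/-- the pairs `(j, t)` with `j < m` and `t` a positive rational number -/
abbrev Pairs (m : ℕ) := {p : ℕ × ℚ // p.1 < m ∧ 0 < p.2}

/-- the number `I_j(t)` for a pair `(j, t)` -/
noncomputable def PI (p : Pairs 4) : ℝ := I p.1.1 p.1.2

/-- the number `K_j(t)` for a pair `(j, t)` -/
noncomputable def PK (p : Pairs 3) : ℝ := K p.1.1 p.1.2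

/-- the family of all numbers `I_j(t)` (`j < 4`) and `K_j(t)` (`j < 3`), `t` positive rational -/
noncomputable def Ints : Pairs 4 ⊕ Pairs 3 → ℝ := Sum.elim PI PK

/-- the family of the numbers `ζ(3)`, `I_j(t)` (`j < 4`), `π`, `K_j(t)` (`j < 3`), `t` positive rational -/
noncomputable def Fam : Option (Pairs 4) ⊕ Option (Pairs 3) → ℝ :=
  Sum.elim (fun o => o.elim zeta3 PI) (fun o => o.elim π PK)

/-- `∑ c_{n+j} t^n / n!` -/
noncomputable def expSum (c : ℕ → ℚ) (j : ℕ) (t : ℚ) : ℝ := ∑' n : ℕ, (c (n + j) : ℝ) * (t : ℝ) ^ n / (n.factorial : ℝ)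

/-- Apery's recurrence for `ζ(3)` -/
def AperyRec (c : ℕ → ℚ) : Prop := ∀ n : ℕ, ((n : ℚ) + 2) ^ 3 * c (n + 2) -
  (34 * ((n : ℚ) + 1) ^ 3 + 51 * ((n : ℚ) + 1) ^ 2 + 27 * ((n : ℚ) + 1) + 5) * c (n + 1) + ((n : ℚ) + 1) ^ 3 * c n = 0

/-- Apery's recurrence for `ζ(2)`, for the sequences with alternating signs -/
def AperyRec2 (c : ℕ → ℚ) : Prop := ∀ n : ℕ, ((n : ℚ) + 2) ^ 2 * c (n + 2) +
  (11 * ((n : ℚ) + 1) ^ 2 + 11 * ((n : ℚ) + 1) + 3) * c (n + 1) - ((n : ℚ) + 1) ^ 2 * c n = 0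

/-- `x` is algebraic over the field generated by the set `G` -/
def AlgebraicOver (G : Set ℝ) (x : ℝ) : Prop := IsAlgebraic (IntermediateField.adjoin ℚ G) x

/-- the transcendence degree of the field generated by the set `G` -/
noncomputable def trdeg (G : Set ℝ) : Cardinal := Algebra.trdeg ℚ (IntermediateField.adjoin ℚ G)

/-- Euler's number -/
noncomputable abbrev e : ℝ := Real.exp 1

theorem I_eq (j : ℕ) (t : ℝ) : I j t = ∑' n : ℕ, Jn (n + j) * t ^ n / (n.factorial : ℝ) := by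
  have h := E8helper41.AZ.beu2 j t
  have h2 : I j t = 1 / 2 * ∫ p : ℝ × ℝ × ℝ in Set.Ioo 0 1 ×ˢ Set.Ioo 0 1 ×ˢ Set.Ioo 0 1,
    beu p.1 p.2.1 p.2.2 ^ j * Real.exp (t * beu p.1 p.2.1 p.2.2) / (1 - (1 - p.1 * p.2.1) * p.2.2) := rfl
  rw [h2, h]
  ring

theorem K_eq (j : ℕ) (t : ℝ) : K j t = ∑' n : ℕ, Jn2 (n + j) * t ^ n / (n.factorial : ℝ) :=
  E8helper77.AZ.beu3 j t

theorem algOver_pi (G : Set ℝ) (h : AlgebraicOver G π) : AlgebraicOver G (π ^ 2 / 6) := by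
  unfold AlgebraicOver at *
  have h6 : IsAlgebraic (IntermediateField.adjoin ℚ G) ((6 : ℕ) : ℝ) := isAlgebraic_natCast 6
  have := (h.pow 2).mul h6.inv
  rwa [show π ^ 2 * ((6 : ℕ) : ℝ)⁻¹ = π ^ 2 / 6 by push_cast; ring] at this

theorem result :
    -- Apery's numbers, their linear forms, and the algebraic independence
    (∃ a b c d : ℕ → ℚ, (a 0 = 1 ∧ a 1 = 5 ∧ AperyRec a) ∧ (b 0 = 0 ∧ b 1 = 6 ∧ AperyRec b) ∧
      (c 0 = 1 ∧ c 1 = -3 ∧ AperyRec2 c) ∧ (d 0 = 0 ∧ d 1 = -5 ∧ AperyRec2 d) ∧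
      (∀ n : ℕ, I n 0 = a n * zeta3 - b n) ∧ (∀ n : ℕ, K n 0 = c n * (π ^ 2 / 6) - d n) ∧
      (∀ (j : ℕ) (t : ℚ), I j t = zeta3 * expSum a j t - expSum b j t) ∧
      (∀ (j : ℕ) (t : ℚ), K j t = π ^ 2 / 6 * expSum c j t - expSum d j t) ∧
      AlgebraicIndependent ℚ (fun o : Option ((Pairs 4 ⊕ Pairs 4) ⊕ (Pairs 3 ⊕ Pairs 3)) => o.elim e
        (Sum.elim (Sum.elim (fun p => expSum a p.1.1 p.1.2) (fun p => expSum b p.1.1 p.1.2))
          (Sum.elim (fun p => expSum c p.1.1 p.1.2) (fun p => expSum d p.1.1 p.1.2))))) ∧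
    I 0 0 = zeta3 ∧ K 0 0 = π ^ 2 / 6 ∧
    -- over `ℚ(e)`: at most one of the numbers `ζ(3)`, `I_j(t)` and at most one of the numbers `π`, `K_j(t)` is algebraic
    (∀ o o' : Option (Pairs 4), AlgebraicOver {e} (Fam (Sum.inl o)) → AlgebraicOver {e} (Fam (Sum.inl o')) → o = o') ∧
    (∀ o o' : Option (Pairs 3), AlgebraicOver {e} (Fam (Sum.inr o)) → AlgebraicOver {e} (Fam (Sum.inr o')) → o = o') ∧
    -- over `ℚ(e, G)`, `G` of transcendence degree at most `r`, at most `r + 2` members of the family are algebraic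
    (∀ (G : Set ℝ) (r : ℕ), trdeg G ≤ (r : Cardinal) → {i | AlgebraicOver ({e} ∪ G) (Fam i)}.encard ≤ ((r + 2 : ℕ) : ℕ∞)) ∧
    -- `π` and `ζ(3)`: at most two of the numbers `I_j(t)`, `K_j(t)` are algebraic over `ℚ(e, π, ζ(3))`, and at most one
    -- if `π` and `ζ(3)` are algebraically dependent
    {i | AlgebraicOver {e, π, zeta3} (Ints i)}.encard ≤ 2 ∧
    (¬ AlgebraicIndependent ℚ ![π, zeta3] → {i | AlgebraicOver {e, π, zeta3} (Ints i)}.encard ≤ 1) ∧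
    -- the transcendence degree of a field `ℚ(e, G)` over which `π` and `ζ(3)` are algebraic, and the case `G = {π, ζ(3)}`
    (∀ G : Set ℝ, AlgebraicOver ({e} ∪ G) zeta3 → AlgebraicOver ({e} ∪ G) π → ∀ (S : Finset (Pairs 4))
      (S' : Finset (Pairs 3)), ((S.card + S'.card + 1 : ℕ) : Cardinal) ≤ trdeg ({e} ∪ G ∪ PI '' S ∪ PK '' S')) ∧
    (∀ (S : Finset (Pairs 4)) (S' : Finset (Pairs 3)), ((S.card + S'.card + 1 : ℕ) : Cardinal) ≤
      trdeg ({e} ∪ {π, zeta3} ∪ PI '' S ∪ PK '' S')) ∧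
    -- if `ζ(3)` and `π` are algebraic over `ℚ(e)`, then `e` and all the integrals are algebraically independent
    (AlgebraicOver {e} zeta3 → AlgebraicOver {e} π →
      AlgebraicIndependent ℚ (fun o : Option (Pairs 4 ⊕ Pairs 3) => o.elim e Ints)) := by
  obtain ⟨a, b, c, d, hab, hcd, hJ, hJ', hI, hI', hind⟩ := all_indep
  have hlin : ∀ (j : ℕ) (t : ℚ), I j t = zeta3 * expSum a j t - expSum b j t := by
    intro j t
    rw [I_eq]
    exact hI j t
  have hlin' : ∀ (j : ℕ) (t : ℚ), K j t = π ^ 2 / 6 * expSum c j t - expSum d j t := by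
    intro j t
    rw [K_eq]
    exact hI' j t
  have hlin0 : ∀ n : ℕ, I n 0 = a n * zeta3 - b n := by
    intro n
    rw [I_eq, tsum_eq_single 0]
    · rw [zero_add, pow_zero, Nat.factorial_zero, Nat.cast_one, mul_one, div_one]
      exact hJ n
    · intro m hm
      rw [zero_pow hm]
      simp
  have hlin0' : ∀ n : ℕ, K n 0 = c n * (π ^ 2 / 6) - d n := by
    intro n
    rw [K_eq, tsum_eq_single 0]
    · rw [zero_add, pow_zero, Nat.factorial_zero, Nat.cast_one, mul_one, div_one]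
      exact hJ' n
    · intro m hm
      rw [zero_pow hm]
      simp
  have hJJ : PI = fun p : Pairs 4 => zeta3 * expSum a p.1.1 p.1.2 - expSum b p.1.1 p.1.2 := by
    funext p
    exact hlin _ _
  have hKK : PK = fun p : Pairs 3 => π ^ 2 / 6 * expSum c p.1.1 p.1.2 - expSum d p.1.1 p.1.2 := by
    funext p
    exact hlin' _ _
  have hind1 : AlgebraicIndependent ℚ (fun o : Option (Pairs 4 ⊕ Pairs 4) => o.elim e
        (Sum.elim (fun p : Pairs 4 => expSum a p.1.1 p.1.2) (fun p : Pairs 4 => expSum b p.1.1 p.1.2))) := by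
    have h := hind.comp (Option.map (Sum.inl : Prs 4 ⊕ Prs 4 → (Prs 4 ⊕ Prs 4) ⊕ (Prs 3 ⊕ Prs 3)))
      (Option.map_injective Sum.inl_injective)
    convert h using 1
    funext o
    rcases o with _ | (p | p) <;> rfl
  have hind2 : AlgebraicIndependent ℚ (fun o : Option (Pairs 3 ⊕ Pairs 3) => o.elim e
        (Sum.elim (fun p : Pairs 3 => expSum c p.1.1 p.1.2) (fun p : Pairs 3 => expSum d p.1.1 p.1.2))) := by
    have h := hind.comp (Option.map (Sum.inr : Prs 3 ⊕ Prs 3 → (Prs 4 ⊕ Prs 4) ⊕ (Prs 3 ⊕ Prs 3)))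
      (Option.map_injective Sum.inr_injective)
    convert h using 1
    funext o
    rcases o with _ | (p | p) <;> rfl
  have key : ∀ (J' : Pairs 4 → ℝ) (K' : Pairs 3 → ℝ),
      (J' = fun p : Pairs 4 => zeta3 * expSum a p.1.1 p.1.2 - expSum b p.1.1 p.1.2) →
      (K' = fun p : Pairs 3 => π ^ 2 / 6 * expSum c p.1.1 p.1.2 - expSum d p.1.1 p.1.2) →
      (∀ o o' : Option (Pairs 4), AlgebraicOver {e} (o.elim zeta3 J') → AlgebraicOver {e} (o'.elim zeta3 J') → o = o') ∧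
      (∀ o o' : Option (Pairs 3), AlgebraicOver {e} (o.elim (π ^ 2 / 6) K') →
        AlgebraicOver {e} (o'.elim (π ^ 2 / 6) K') → o = o') ∧
      (∀ (G : Set ℝ) (r : ℕ), trdeg ({e} ∪ G) ≤ ((r + 1 : ℕ) : Cardinal) →
        {i : Option (Pairs 4) ⊕ Option (Pairs 3) | AlgebraicOver ({e} ∪ G)
          (i.elim (fun o => o.elim zeta3 J') (fun o => o.elim (π ^ 2 / 6) K'))}.encard ≤ ((r + 2 : ℕ) : ℕ∞)) ∧
      (∀ (G : Set ℝ), AlgebraicOver ({e} ∪ G) zeta3 → AlgebraicOver ({e} ∪ G) (π ^ 2 / 6) → ∀ (m : ℕ),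
        trdeg ({e} ∪ G) ≤ ((m + 1 : ℕ) : Cardinal) →
        {i : Pairs 4 ⊕ Pairs 3 | AlgebraicOver ({e} ∪ G) (i.elim J' K')}.encard ≤ (m : ℕ∞)) ∧
      (∀ G : Set ℝ, AlgebraicOver ({e} ∪ G) zeta3 → AlgebraicOver ({e} ∪ G) (π ^ 2 / 6) → ∀ (S : Finset (Pairs 4))
        (S' : Finset (Pairs 3)), ((S.card + S'.card + 1 : ℕ) : Cardinal) ≤ trdeg ({e} ∪ G ∪ J' '' S ∪ K' '' S')) ∧
      (AlgebraicOver {e} zeta3 → AlgebraicOver {e} (π ^ 2 / 6) →
        AlgebraicIndependent ℚ (fun o : Option (Pairs 4 ⊕ Pairs 3) => o.elim e (Sum.elim J' K'))) := by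
    rintro _ _ rfl rfl
    refine ⟨(E8helper71.AZ.t_FGE _ e zeta3 _ _ hind1).2.1, (E8helper71.AZ.t_FGE _ e (π ^ 2 / 6) _ _ hind2).2.1, ?_, ?_, ?_, ?_⟩
    · intro G r h
      exact cnt1 hind G r h
    · intro G h h' m hm
      exact cnt0 hind G h h' m hm
    · intro G h h' S S'
      exact E8helper77.AZ.fgm _ _ e zeta3 (π ^ 2 / 6) _ _ _ _ hind G h h' S S'
    · intro h h'
      exact indep2 hind h h'
  obtain ⟨h1, h2, h3, h4, h5, h6⟩ := key PI PK hJJ hKK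
  have hmemz : AlgebraicOver ({e} ∪ {π, zeta3}) zeta3 := alg_mem (Or.inr (Or.inr rfl))
  have hmemp : AlgebraicOver ({e} ∪ {π, zeta3}) π := alg_mem (Or.inr (Or.inl rfl))
  have hset : ({e, π, zeta3} : Set ℝ) = {e} ∪ {π, zeta3} := Set.insert_eq _ _
  refine ⟨⟨a, b, c, d, ⟨hab.a0, hab.a1, hab.rec_a⟩, ⟨hab.b0, hab.b1, hab.rec_b⟩, ⟨hcd.a0, hcd.a1, hcd.rec_a⟩,
    ⟨hcd.b0, hcd.b1, hcd.rec_b⟩, hlin0, hlin0', hlin, hlin', hind⟩, ?_, ?_, ?_, ?_, ?_, ?_, ?_,
    fun G hz hp => h5 G hz (algOver_pi _ hp), fun S S' => h5 {π, zeta3} hmemz (algOver_pi _ hmemp) S S',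
    fun hz hp => h6 hz (algOver_pi _ hp)⟩
  · have := hlin0 0
    rw [this, hab.a0, hab.b0]
    simp
  · have := hlin0' 0
    rw [this, hcd.a0, hcd.b0]
    simp
  · exact h1
  · intro o o' ho ho'
    apply h2
    · rcases o with _ | o
      · exact algOver_pi _ ho
      · exact ho
    · rcases o' with _ | o'
      · exact algOver_pi _ ho'
      · exact ho'
  · intro G r hG
    refine le_trans (Set.encard_le_encard ?_) (h3 G r (trdeg_insert G e r hG))
    rintro i hi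
    rcases i with o | o
    · exact hi
    · rcases o with _ | o
      · exact algOver_pi _ hi
      · exact hi
  · rw [hset]
    exact h4 {π, zeta3} hmemz (algOver_pi _ hmemp) 2 (by
      rw [← hset]
      exact trdeg_three' e π zeta3)
  · intro hdep
    rw [hset]
    refine h4 {π, zeta3} hmemz (algOver_pi _ hmemp) 1 ?_
    rw [← hset]
    apply trdeg_three
    intro hcon
    apply hdep
    have := hcon.comp (Fin.succ : Fin 2 → Fin 3) (Fin.succ_injective 2)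
    exact this

end Pool.Agent.Results.MP_a89d6d_nt.JointAperyIntegralsH42
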