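import Pool.Agent.E8helper75.ZP.Main
import Pool.Agent.H340R2.LW

/-!
# Random products of odd zeta values are not rational functions of bounded degree in `π`

For all `N` and `c < 1/2` and all large `n` the following holds for every nonzero complex number `b` and every number
field `K` of degree at most `(log n)^(1/2 - c)`: for all but a proportion `(log n)^(-c)` of the sets `S` of odd numbers
in a window (for example of all sets `S` of odd numbers between `3` and `2n + 1`) the number `b ∏ i ∈ S, ζ(i)` is not
the value at `π` of a rational function of degree at most `N` with coefficients in `K`. Instead of `π` one can take any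
algebraically independent numbers `θ_1, …, θ_r` (with any `r`).

The proof: the odd zeta values are mapped to the rational vector space `(ℂˣ / Kˣ) ⊗ ℚ`, in which the irreducible
polynomials in `θ` give linearly independent elements (unique factorisation). If the values span a space of large
dimension, few of the subset sums of an independent subfamily are exponent vectors of quotients of small degree; if the
dimension is small, there are few such exponent vectors in a translate of the space, and each is attained rarely by the
Littlewood-Offord theorem, unless nearly all values are radicals of elements of `K`; in this case there are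
multiplicatively different radicals modulo `Kˣ` among them by the theorem on odd zeta values outside subspaces of the
starting files (`Pool/Agent/Results/MP_a89d6d_nt/OutsideSubspacesTwoThirds.lean`), while `K(θ)` contains no radicals
outside `K`.
-/

set_option autoImplicit false

namespace Pool.Agent.Results.MP_a89d6d_nt.ProductsNotRationalInPiH75

open Classical in
/-- **Random products of odd zeta values.** Let `K` be a number field of degree at most `(log n)^(1/2 - c)`, `b ≠ 0`.
For all but a proportion `(log n)^(-c)` of the subsets `S` of `{n₁, …, n - 1}`, `n₁² ≤ n` (for example `n₁ = 0`), the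
number `b ∏ k ∈ S, ζ(2k + 3)` is not a quotient of two polynomials of degree at most `N` with coefficients in `K` at
given algebraically independent numbers `θ_1, …, θ_r`, and the same for polynomials in `π`. -/
theorem result (N : ℕ) (c : ℝ) (hc0 : 0 < c) (hc : c < 1 / 2) : ∃ n₀ : ℕ, ∀ n ≥ n₀,
    ∀ n₁ : ℕ, n₁ ^ 2 ≤ n → ∀ K : IntermediateField ℚ ℂ, FiniteDimensional ℚ K →
    (Module.finrank ℚ K : ℝ) ≤ Real.log n ^ (1 / 2 - c) → ∀ b : ℂ, b ≠ 0 →
    (∀ (r : ℕ) (θ : Fin r → ℂ), AlgebraicIndependent ℚ θ →
      (((Finset.Ico n₁ n).powerset.filter (fun S => ∃ P Q : MvPolynomial (Fin r) K,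
          P.totalDegree ≤ N ∧ Q.totalDegree ≤ N ∧ MvPolynomial.aeval θ Q ≠ 0 ∧
          b * ∏ k ∈ S, riemannZeta (2 * (k : ℕ) + 3) =
            MvPolynomial.aeval θ P / MvPolynomial.aeval θ Q)).card : ℝ) ≤
        Real.log n ^ (-c) * 2 ^ (n - n₁)) ∧
    (((Finset.Ico n₁ n).powerset.filter (fun S => ∃ P Q : Polynomial K,
        P.natDegree ≤ N ∧ Q.natDegree ≤ N ∧ Polynomial.aeval (Real.pi : ℂ) Q ≠ 0 ∧
        b * ∏ k ∈ S, riemannZeta (2 * (k : ℕ) + 3) =
          Polynomial.aeval (Real.pi : ℂ) P / Polynomial.aeval (Real.pi : ℂ) Q)).card : ℝ) ≤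
      Real.log n ^ (-c) * 2 ^ (n - n₁) := by
  obtain ⟨n₂, h₂⟩ := Pool.Agent.E8helper75.ZP.products N c hc0 hc
  obtain ⟨n₃, h₃⟩ := Pool.Agent.E8helper75.ZP.products_pi N c hc0 hc
  refine ⟨max n₂ n₃, fun n hn n₁ hn₁ K hK hKr b hb => ⟨fun r θ hθ => ?_, ?_⟩⟩
  · have hst : IsScalarTower ℚ K ℂ := inferInstance
    refine le_trans ?_ (h₂ n (le_trans (le_max_left _ _) hn) n₁ hn₁ K hKr r θ
      (hθ.extendScalars K) b hb)
    refine Nat.cast_le.2 (Finset.card_le_card ?_)
    intro S hS
    rw [Finset.mem_filter] at hS ⊢
    obtain ⟨hS1, P, Q, hP, hQ, hQ0, hx⟩ := hS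
    refine ⟨hS1, P, Q, hP, hQ, hQ0, ?_⟩
    rw [hx, div_mul_cancel₀ _ hQ0]
  · exact h₃ n (le_trans (le_max_right _ _) hn) n₁ hn₁ K hKr _
      Pool.Agent.H340R2.LW.transcendental_pi_complex b hb

end Pool.Agent.Results.MP_a89d6d_nt.ProductsNotRationalInPiH75
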