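import Pool.Agent.E8helper75.ZL.Main

/-!
# Random integer combinations of the odd zeta values modulo spaces of logarithmic dimension

Let `n` be large, `W ⊆ ℂ` any rational vector space of dimension at most `log n / 2500` (for example the space of all
polynomials of this degree in `π`), `y` any complex number, `r_k` nonzero rational numbers. Of the `(2 M)^(n - n₁)` vectors
`a` with entries in `{0, …, 2 M - 1}` at most the proportion `exp (- log n * log (M n) / 30000)` satisfies
`y + ∑ a_k r_k ζ(2k+3) ∈ W`, the sum over `n₁ ≤ k < n`, for all `M ≥ 1` and `n₁ ≤ √n`. For `M = 1` these are the subset sums: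
in the starting file `SubsetSums` the dimension of `W` is bounded and the proportion is a power `n^(-c)`, where `c` depends on the
dimension; here the dimension may grow like the logarithm and the proportion is smaller than every power of `n`. In
particular the numbers `∑ a_k ζ(2k+3)` are in at least `exp (log n * log (M n) / 30000)` classes modulo `W`.

The proof: by the starting theorem on odd zeta values outside subspaces there are `n^(1/6)` disjoint sets of `log n / 2500`
odd zeta values which are linearly independent modulo `W`, and for such families there is a strong form of the theorem of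
Littlewood and Offord (in the manner of Halász), proved by repeated application of the Cauchy-Schwarz inequality
to convolutions.
-/

set_option autoImplicit false

namespace Pool.Agent.Results.MP_a89d6d_nt.RandomCombinationsH75

open Classical in
/-- **Random integer combinations of the odd zeta values.** For all large `n`, all `n₁ ≤ √n`, all `M ≥ 1`, all nonzero
rational `r k`, all rational vector spaces `W ⊆ ℂ` of dimension at most `log n / 2500` and all `y`: at most the
proportion `exp (- log n * log (M n) / 30000)` of the vectors `a` with entries in `{0, …, 2 M - 1}` have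
`y + ∑ a k * r k * ζ(2 k + 3) ∈ W`, the sum over `n₁ ≤ k < n`. -/
theorem result : ∃ n₀ : ℕ, ∀ n ≥ n₀, ∀ n₁ : ℕ, n₁ ^ 2 ≤ n → ∀ M : ℕ, 0 < M → ∀ r : ℕ → ℚ,
    (∀ k, r k ≠ 0) → ∀ W : Submodule ℚ ℂ, FiniteDimensional ℚ W →
    (Module.finrank ℚ W : ℝ) ≤ Real.log n / 2500 → ∀ y : ℂ,
    (((Fintype.piFinset (fun _ : Finset.Ico n₁ n => Finset.range (2 * M))).filter
      (fun a => y + ∑ k : Finset.Ico n₁ n, (a k : ℂ) * (r k : ℂ) * riemannZeta (2 * ((k : ℕ) : ℂ) + 3) ∈ W)).card : ℝ) ≤
      Real.exp (- (Real.log n * Real.log (M * n)) / 30000) * (2 * M) ^ (n - n₁) :=
  Pool.Agent.E8helper75.ZL.combos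

end Pool.Agent.Results.MP_a89d6d_nt.RandomCombinationsH75
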